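import Pool.Agent.Q45.EM.Stm

/-!
# Endomorphisms which commute with everything are scalars modulo the line of `D`
-/

set_option autoImplicit false

open scoped Classical

namespace Pool.Agent.Q164.EM.EndS

open Pool.Agent.Q45.EM

section

variable {R M : Type} [AddCommGroup M] [Module ℤ_[2] M]

theorem two_rep (a : ℤ_[2]) : ∃ (n : ℕ) (b : ℤ_[2]), n < 2 ∧ a = (n : ℤ_[2]) + 2 * b := by
  have h := PadicInt.zmodRepr_spec a
  have h2 := h.2
  rw [PadicInt.maximalIdeal_eq_span_p, Ideal.mem_span_singleton'] at h2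
  obtain ⟨b, hb⟩ := h2
  refine ⟨PadicInt.zmodRepr a, b, h.1, ?_⟩
  rw [eq_sub_iff_add_eq] at hb
  push_cast at hb
  linear_combination -hb

theorem two_ne : (2 : ℤ_[2]) ≠ 0 := two_ne_zero

variable {κ : M →+ (R → ZMod 2)} {D : M}

theorem k2 (h : Red κ D) (m : M) : κ ((2 : ℤ_[2]) • m) = 0 := (h.zero_iff _).2 ⟨m, rfl⟩

theorem keq (h : Red κ D) {m m' : M} (e : κ m = κ m') : ∃ z, m = m' + (2 : ℤ_[2]) • z := by
  have h1 : κ (m - m') = 0 := by rw [map_sub, e, sub_self]
  obtain ⟨z, hz⟩ := (h.zero_iff _).1 h1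
  exact ⟨z, by rw [← hz]; abel⟩

theorem kend (h : Red κ D) (B : M →ₗ[ℤ_[2]] M) {m m' : M} (e : κ m = κ m') : κ (B m) = κ (B m') := by
  obtain ⟨z, rfl⟩ := keq h e
  rw [map_add, map_add, map_smul, k2 h, add_zero]

theorem ksmul (h : Red κ D) (a : ℤ_[2]) (m : M) : ∃ n : ℕ, (∃ b : ℤ_[2], n < 2 ∧ a = (n : ℤ_[2]) + 2 * b) ∧
    κ (a • m) = n • κ m := by
  obtain ⟨n, b, hn, rfl⟩ := two_rep a
  refine ⟨n, ⟨b, hn, rfl⟩, ?_⟩
  rw [add_smul, mul_smul, map_add, k2 h, add_zero, Nat.cast_smul_eq_nsmul, map_nsmul]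

theorem kspan (h : Red κ D) {z : M} (hz : z ∈ Submodule.span ℤ_[2] {D}) : ∃ c : ZMod 2, ∀ r, κ z r = c := by
  obtain ⟨a, rfl⟩ := Submodule.mem_span_singleton.1 hz
  obtain ⟨n, -, hn⟩ := ksmul h a D
  refine ⟨n • 1, fun r => ?_⟩
  rw [hn, Pi.smul_apply, h.one]

theorem kconst (h : Red κ D) [Nonempty R] {z : M} (hz : ∀ r s, κ z r = κ z s) :
    ∃ (a : ℤ_[2]) (z' : M), z = a • D + (2 : ℤ_[2]) • z' := by
  obtain ⟨r0⟩ := ‹Nonempty R›
  rcases (by decide : ∀ x : ZMod 2, x = 0 ∨ x = 1) (κ z r0) with h0 | h0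
  · have h1 : κ z = κ 0 := by
      rw [map_zero]
      funext r
      rw [hz r r0, h0]
      rfl
    obtain ⟨z', e⟩ := keq h h1
    exact ⟨0, z', by rw [e]; simp⟩
  · have h1 : κ z = κ D := by
      funext r
      rw [hz r r0, h0, h.one]
    obtain ⟨z', e⟩ := keq h h1
    exact ⟨1, z', by rw [e]; simp⟩

theorem sat (h : Red κ D) [Nonempty R] [Module.Free ℤ_[2] M] {z : M}
    (hz : (2 : ℤ_[2]) • z ∈ Submodule.span ℤ_[2] {D}) : z ∈ Submodule.span ℤ_[2] {D} := by
  obtain ⟨r0⟩ := ‹Nonempty R›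
  obtain ⟨a, ha⟩ := Submodule.mem_span_singleton.1 hz
  obtain ⟨n, ⟨b, hn, rfl⟩, hk⟩ := ksmul h a D
  rw [ha, k2 h] at hk
  have h1 := congrFun hk r0
  rw [Pi.smul_apply, h.one, Pi.zero_apply] at h1
  have hn0 : n = 0 := by
    interval_cases n
    · rfl
    · simp at h1
  subst hn0
  rw [Submodule.mem_span_singleton]
  refine ⟨b, ?_⟩
  have h2 : (2 : ℤ_[2]) • (b • D - z) = 0 := by
    rw [smul_sub, ← ha, smul_smul]
    simp
  rcases smul_eq_zero.1 h2 with h3 | h3
  · exact absurd h3 two_ne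
  · exact sub_eq_zero.1 h3

/-- the condition: `B` commutes with everything modulo the line of `D` -/
def Cm (D : M) (Φ : Set (M →ₗ[ℤ_[2]] M)) (B : M →ₗ[ℤ_[2]] M) : Prop :=
  B D ∈ Submodule.span ℤ_[2] {D} ∧ ∀ A ∈ Φ, ∀ m, B (A m) - A (B m) ∈ Submodule.span ℤ_[2] {D}

variable {Φ : Set (M →ₗ[ℤ_[2]] M)} {B : M →ₗ[ℤ_[2]] M}

theorem comm (h : Red κ D) (hB : Cm D Φ B) {A : M →ₗ[ℤ_[2]] M} (hA : A ∈ Φ) {π : Equiv.Perm R}
    (hT : Thr κ A π) (m : M) : ∃ ε : ZMod 2, ∀ r, κ (B (A m)) (π r) = κ (B m) r + ε := by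
  obtain ⟨ε, hε⟩ := kspan h (hB.2 A hA m)
  refine ⟨ε, fun r => ?_⟩
  have h1 := hε (π r)
  rw [map_sub, Pi.sub_apply, hT] at h1
  rw [← h1]
  ring

theorem zadd (x : ZMod 2) : x + x = 0 := by
  revert x
  decide

theorem zsub (a b c : ZMod 2) : a - c * b = a + c * b := by
  revert a b c
  decide

theorem znadd {x y : ZMod 2} (h : x ≠ y) : x + y = 1 := by
  revert x y
  decide

/-- equal values stay equal -/
theorem level (h : Red κ D) (hB : Cm D Φ B) (hΦ : ∀ π : Equiv.Perm R, ∃ A ∈ Φ, Thr κ A π)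
    (h3 : ∀ i j : R, ∃ k, k ≠ i ∧ k ≠ j) {m : M} {i j : R} (e : κ m i = κ m j) : κ (B m) i = κ (B m) j := by
  obtain ⟨A, hA, hT⟩ := hΦ (Equiv.swap i j)
  have hAm : κ (A m) = κ m := by
    funext r
    obtain ⟨s, rfl⟩ := (Equiv.swap i j).surjective r
    rw [hT]
    by_cases hi : s = i
    · rw [hi, Equiv.swap_apply_left, e]
    · by_cases hj : s = j
      · rw [hj, Equiv.swap_apply_right, e]
      · rw [Equiv.swap_apply_of_ne_of_ne hi hj]
  have hBm := kend h B hAm
  obtain ⟨ε, hε⟩ := comm h hB hA hT m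
  obtain ⟨k, hk1, hk2⟩ := h3 i j
  have e1 := hε k
  rw [Equiv.swap_apply_of_ne_of_ne hk1 hk2, hBm] at e1
  have e2 : ε = 0 := by
    have := e1
    rw [left_eq_add] at this
    exact this
  have e3 := hε i
  rw [Equiv.swap_apply_left, hBm, e2, add_zero] at e3
  exact e3.symm

theorem two_pts (h : Red κ D) (hB : Cm D Φ B) (hΦ : ∀ π : Equiv.Perm R, ∃ A ∈ Φ, Thr κ A π)
    {m : M} {i j : R} (e : κ m i ≠ κ m j) :
    ∃ y : M, (∀ r, κ y r = if r = i ∨ r = j then 1 else 0) ∧
      ∃ ε : ZMod 2, ∀ r, κ (B y) r = (if r = i ∨ r = j then κ (B m) i + κ (B m) j else 0) + ε := by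
  obtain ⟨A, hA, hT⟩ := hΦ (Equiv.swap i j)
  have hij : i ≠ j := fun e' => e (by rw [e'])
  obtain ⟨ε, hε⟩ := comm h hB hA hT m
  refine ⟨m + A m, ?_, ε, ?_⟩
  · intro r
    obtain ⟨s, rfl⟩ := (Equiv.swap i j).surjective r
    rw [map_add, Pi.add_apply, hT]
    by_cases hi : s = i
    · rw [hi, Equiv.swap_apply_left, if_pos (Or.inr rfl)]
      exact znadd (Ne.symm e)
    · by_cases hj : s = j
      · rw [hj, Equiv.swap_apply_right, if_pos (Or.inl rfl)]
        exact znadd e
      · rw [Equiv.swap_apply_of_ne_of_ne hi hj, if_neg (by tauto)]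
        exact zadd _
  · intro r
    obtain ⟨s, rfl⟩ := (Equiv.swap i j).surjective r
    rw [map_add, map_add, Pi.add_apply, hε]
    by_cases hi : s = i
    · rw [hi, Equiv.swap_apply_left, if_pos (Or.inr rfl)]
      ring
    · by_cases hj : s = j
      · rw [hj, Equiv.swap_apply_right, if_pos (Or.inl rfl)]
        ring
      · rw [Equiv.swap_apply_of_ne_of_ne hi hj, if_neg (by tauto), ← add_assoc, zadd]

theorem exists_perm {i j k l : R} (hij : i ≠ j) (hkl : k ≠ l) : ∃ π : Equiv.Perm R, π i = k ∧ π j = l := by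
  refine ⟨Equiv.swap (Equiv.swap i k j) l * Equiv.swap i k, ?_, ?_⟩
  · rw [Equiv.Perm.mul_apply, Equiv.swap_apply_left]
    apply Equiv.swap_apply_of_ne_of_ne
    · intro e
      apply hij
      apply (Equiv.swap i k).injective
      rw [Equiv.swap_apply_left]
      exact e
    · exact hkl
  · rw [Equiv.Perm.mul_apply, Equiv.swap_apply_left]

theorem same_c (h : Red κ D) (hB : Cm D Φ B) (hΦ : ∀ π : Equiv.Perm R, ∃ A ∈ Φ, Thr κ A π)
    (h3 : ∀ i j : R, ∃ k, k ≠ i ∧ k ≠ j) {m m' : M} {i j k l : R} (e : κ m i ≠ κ m j) (e' : κ m' k ≠ κ m' l) :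
    κ (B m) i + κ (B m) j = κ (B m') k + κ (B m') l := by
  obtain ⟨y, hy, ε, hε⟩ := two_pts h hB hΦ e
  obtain ⟨y', hy', ε', hε'⟩ := two_pts h hB hΦ e'
  have hij : i ≠ j := fun e'' => e (by rw [e''])
  have hkl : k ≠ l := fun e'' => e' (by rw [e''])
  obtain ⟨π, hi, hj⟩ := exists_perm hij hkl
  obtain ⟨A, hA, hT⟩ := hΦ π
  have hiff : ∀ s, (π s = k ∨ π s = l) ↔ (s = i ∨ s = j) := by
    intro s
    rw [← hi, ← hj, π.injective.eq_iff, π.injective.eq_iff]
  have hAy : κ (A y) = κ y' := by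
    funext r
    obtain ⟨s, rfl⟩ := π.surjective r
    rw [hT, hy, hy']
    simp only [hiff]
  have hBy := kend h B hAy
  obtain ⟨δ, hδ⟩ := comm h hB hA hT y
  have g : ∀ s, (if s = i ∨ s = j then κ (B m') k + κ (B m') l else 0) + ε' =
      (if s = i ∨ s = j then κ (B m) i + κ (B m) j else 0) + ε + δ := by
    intro s
    have g1 := hδ s
    rw [hBy, hε', hε] at g1
    simp only [hiff] at g1
    exact g1
  obtain ⟨s, hs1, hs2⟩ := h3 i j
  have g1 := g i
  have g2 := g s
  rw [if_pos (Or.inl rfl), if_pos (Or.inl rfl)] at g1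
  rw [if_neg (by tauto), if_neg (by tauto)] at g2
  have g3 : κ (B m') k + κ (B m') l + ε' = κ (B m) i + κ (B m) j + (ε + δ) := by
    rw [g1]; ring
  have g4 : ε' = ε + δ := by
    have := g2
    rw [zero_add, zero_add] at this
    exact this
  rw [g4] at g3
  exact (add_right_cancel g3).symm

/-- the statement modulo two -/
theorem mod_two (h : Red κ D) (hB : Cm D Φ B) (hΦ : ∀ π : Equiv.Perm R, ∃ A ∈ Φ, Thr κ A π)
    (h3 : ∀ i j : R, ∃ k, k ≠ i ∧ k ≠ j) : ∃ c : ZMod 2, ∀ m r s,
      κ (B m) r + c * κ m r = κ (B m) s + c * κ m s := by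
  by_cases hne : ∃ (m : M) (i j : R), κ m i ≠ κ m j
  · obtain ⟨m₀, i, j, e⟩ := hne
    refine ⟨κ (B m₀) i + κ (B m₀) j, fun m r s => ?_⟩
    by_cases hrs : κ m r = κ m s
    · rw [hrs, level h hB hΦ h3 hrs]
    · have h1 := same_c h hB hΦ h3 hrs e
      rw [← h1]
      generalize κ (B m) r = a at *
      generalize κ (B m) s = b at *
      generalize κ m r = x at *
      generalize κ m s = y at *
      clear h1 e
      revert a b x y
      decide
  · push Not at hne
    refine ⟨0, fun m r s => ?_⟩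
    rw [zero_mul, zero_mul, add_zero, add_zero]
    exact hne _ _ _

end

theorem main : S_END := by
  intro R M _ _ _ _ _ κ D Φ h hΦD hΦ hcard B hB
  have hne : Nonempty R := Fintype.card_pos_iff.1 (by omega)
  have h3 : ∀ i j : R, ∃ k, k ≠ i ∧ k ≠ j := by
    intro i j
    by_contra hcon
    push Not at hcon
    have h1 : (Finset.univ : Finset R) ⊆ {i, j} := by
      intro k _
      rw [Finset.mem_insert, Finset.mem_singleton]
      by_cases hk : k = i
      · exact Or.inl hk
      · exact Or.inr (hcon k hk)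
    have h2 := Finset.card_le_card h1
    have h4 := Finset.card_le_two (a := i) (b := j)
    rw [Finset.card_univ] at h2
    omega
  have hI : Ideal.span {(2 : ℤ_[2])} ≤ Ideal.jacobson ⊥ := by
    rw [IsLocalRing.jacobson_eq_maximalIdeal ⊥ bot_ne_top, PadicInt.maximalIdeal_eq_span_p]
    exact le_of_eq (by norm_num)
  have hstab : ∀ A ∈ Φ, ∀ z ∈ Submodule.span ℤ_[2] {D}, A z = z := by
    intro A hA z hz
    obtain ⟨a, rfl⟩ := Submodule.mem_span_singleton.1 hz
    rw [map_smul, hΦD A hA]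
  -- the fixed elements
  let Fx : Submodule ℤ_[2] M :=
    { carrier := {m | ∀ A ∈ Φ, A m = m}
      zero_mem' := fun A _ => map_zero A
      add_mem' := by
        intro a b ha hb A hA
        rw [map_add, ha A hA, hb A hA]
      smul_mem' := by
        intro c a ha A hA
        rw [map_smul, ha A hA] }
  have hFx : Fx ≤ Submodule.span ℤ_[2] {D} := by
    refine Submodule.le_of_le_smul_of_le_jacobson_bot (IsNoetherian.noetherian Fx) hI ?_
    intro m hm
    have hm' : ∀ A ∈ Φ, A m = m := hm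
    have hc : ∀ r s, κ m r = κ m s := by
      intro r s
      obtain ⟨A, hA, hT⟩ := hΦ (Equiv.swap r s)
      have h1 := hT m r
      rw [Equiv.swap_apply_left, hm' A hA] at h1
      exact h1.symm
    obtain ⟨a, z, hz⟩ := kconst h hc
    rw [hz]
    refine Submodule.add_mem_sup (Submodule.smul_mem _ a (Submodule.mem_span_singleton_self D)) ?_
    refine Submodule.smul_mem_smul (Ideal.mem_span_singleton_self _) ?_
    intro A hA
    have h1 := hm' A hA
    rw [hz, map_add, map_smul, map_smul, hΦD A hA, add_right_inj] at h1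
    have h2 : (2 : ℤ_[2]) • (A z - z) = 0 := by rw [smul_sub, h1, sub_self]
    rcases smul_eq_zero.1 h2 with h4 | h4
    · exact absurd h4 two_ne
    · exact sub_eq_zero.1 h4
  have hBD : B D ∈ Submodule.span ℤ_[2] {D} := by
    apply hFx
    intro A hA
    rw [← hB A hA D, hΦD A hA]
  -- the endomorphisms which commute modulo the line
  let T : Submodule ℤ_[2] (M →ₗ[ℤ_[2]] M) :=
    { carrier := {B | Cm D Φ B}
      zero_mem' := by
        refine ⟨?_, fun A _ m => ?_⟩
        · rw [LinearMap.zero_apply]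
          exact Submodule.zero_mem _
        · rw [LinearMap.zero_apply, LinearMap.zero_apply, map_zero, sub_zero]
          exact Submodule.zero_mem _
      add_mem' := by
        rintro a b ⟨ha1, ha2⟩ ⟨hb1, hb2⟩
        refine ⟨?_, fun A hA m => ?_⟩
        · rw [LinearMap.add_apply]
          exact Submodule.add_mem _ ha1 hb1
        · rw [LinearMap.add_apply, LinearMap.add_apply, map_add]
          have := Submodule.add_mem _ (ha2 A hA m) (hb2 A hA m)
          convert this using 1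
          abel
      smul_mem' := by
        rintro c a ⟨ha1, ha2⟩
        refine ⟨?_, fun A hA m => ?_⟩
        · rw [LinearMap.smul_apply]
          exact Submodule.smul_mem _ c ha1
        · rw [LinearMap.smul_apply, LinearMap.smul_apply, map_smul, ← smul_sub]
          exact Submodule.smul_mem _ c (ha2 A hA m) }
  let T' : Submodule ℤ_[2] (M →ₗ[ℤ_[2]] M) :=
    { carrier := {B | ∃ x : ℤ_[2], ∀ m, B m - x • m ∈ Submodule.span ℤ_[2] {D}}
      zero_mem' := ⟨0, fun m => by simp⟩
      add_mem' := by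
        rintro a b ⟨x, hx⟩ ⟨y, hy⟩
        refine ⟨x + y, fun m => ?_⟩
        have := Submodule.add_mem _ (hx m) (hy m)
        convert this using 1
        rw [LinearMap.add_apply, add_smul]
        abel
      smul_mem' := by
        rintro c a ⟨x, hx⟩
        refine ⟨c * x, fun m => ?_⟩
        have := Submodule.smul_mem _ c (hx m)
        convert this using 1
        rw [LinearMap.smul_apply, mul_smul, smul_sub] }
  have hT : T ≤ T' := by
    refine Submodule.le_of_le_smul_of_le_jacobson_bot (IsNoetherian.noetherian T) hI ?_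
    intro E hE
    have hE' : Cm D Φ E := hE
    obtain ⟨c, hc⟩ := mod_two h hE' hΦ h3
    -- subtract the scalar
    set E' : M →ₗ[ℤ_[2]] M := E - (c.val : ℤ_[2]) • LinearMap.id with hE'def
    have hk : ∀ m r, κ (E' m) r = κ (E m) r + c * κ m r := by
      intro m r
      rw [hE'def, LinearMap.sub_apply, LinearMap.smul_apply, LinearMap.id_apply, map_sub, Nat.cast_smul_eq_nsmul,
        map_nsmul, Pi.sub_apply, Pi.smul_apply, nsmul_eq_mul, ZMod.natCast_val, ZMod.cast_id]
      exact zsub _ _ _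
    have hE1 : ∀ m, ∃ (a : ℤ_[2]) (z : M), E' m = a • D + (2 : ℤ_[2]) • z := by
      intro m
      apply kconst h
      intro r s
      rw [hk, hk]
      exact hc m r s
    let bs := Module.Free.chooseBasis ℤ_[2] M
    choose a z haz using fun i => hE1 (bs i)
    set B1 : M →ₗ[ℤ_[2]] M := bs.constr ℤ_[2] (fun i => a i • D) with hB1
    set B2 : M →ₗ[ℤ_[2]] M := bs.constr ℤ_[2] z with hB2
    have hsum : E' = B1 + (2 : ℤ_[2]) • B2 := by
      apply bs.ext
      intro i
      rw [LinearMap.add_apply, LinearMap.smul_apply, hB1, hB2, bs.constr_basis, bs.constr_basis, haz]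
    have hB1m : ∀ m, B1 m ∈ Submodule.span ℤ_[2] {D} := by
      intro m
      have h1 : (Submodule.span ℤ_[2] {D}).mkQ ∘ₗ B1 = 0 := by
        apply bs.ext
        intro i
        rw [LinearMap.comp_apply, hB1, bs.constr_basis, LinearMap.zero_apply, Submodule.mkQ_apply,
          Submodule.Quotient.mk_eq_zero]
        exact Submodule.smul_mem _ _ (Submodule.mem_span_singleton_self D)
      have h2 := congrArg (fun f => f m) h1
      simp only [LinearMap.comp_apply, LinearMap.zero_apply, Submodule.mkQ_apply,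
        Submodule.Quotient.mk_eq_zero] at h2
      exact h2
    have hE2 : ∀ m, (2 : ℤ_[2]) • B2 m = E m - (c.val : ℤ_[2]) • m - B1 m := by
      intro m
      have h1 := congrArg (fun f => f m) hsum
      simp only [hE'def, LinearMap.add_apply, LinearMap.smul_apply, LinearMap.sub_apply, LinearMap.id_apply] at h1
      rw [h1]
      abel
    have hB2T : B2 ∈ T := by
      refine ⟨?_, fun A hA m => ?_⟩
      · apply sat h
        rw [hE2]
        refine Submodule.sub_mem _ (Submodule.sub_mem _ hE'.1 ?_) (hB1m D)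
        exact Submodule.smul_mem _ _ (Submodule.mem_span_singleton_self D)
      · apply sat h
        rw [smul_sub, ← map_smul A, hE2, hE2]
        have h1 := hE'.2 A hA m
        have h2 := hB1m (A m)
        have h4 : A (B1 m) ∈ Submodule.span ℤ_[2] {D} := by
          rw [hstab A hA _ (hB1m m)]
          exact hB1m m
        have h5 := Submodule.add_mem _ (Submodule.sub_mem _ h1 h2) h4
        convert h5 using 1
        rw [map_sub, map_sub, map_smul]
        abel
    have hfin : E = ((c.val : ℤ_[2]) • LinearMap.id + B1) + (2 : ℤ_[2]) • B2 := by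
      have h1 := hsum
      rw [hE'def, sub_eq_iff_eq_add] at h1
      rw [h1]
      abel
    rw [hfin]
    refine Submodule.add_mem_sup ⟨(c.val : ℤ_[2]), fun m => ?_⟩
      (Submodule.smul_mem_smul (Ideal.mem_span_singleton_self _) hB2T)
    rw [LinearMap.add_apply, LinearMap.smul_apply, LinearMap.id_apply, add_sub_cancel_left]
    exact hB1m m
  refine hT ⟨hBD, fun A hA m => ?_⟩
  rw [hB A hA m, sub_self]
  exact Submodule.zero_mem _

end Pool.Agent.Q164.EM.EndS
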